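import Mathlib

namespace Pool.Agent.Results.MP_ac85ec_co.No

open Finset Filter

/-- `q` covers `p` in the order `r` -/
def Cov {n : ℕ} (r : Fin n → Fin n → Prop) (p q : Fin n) : Prop :=
  r p q ∧ p ≠ q ∧ ¬ ∃ x, r p x ∧ p ≠ x ∧ r x q ∧ x ≠ q

/-- `r` is graded with exactly `k` grade levels -/
def Graded {n : ℕ} (k : ℕ) (r : Fin n → Fin n → Prop) : Prop :=
  ∃ g : Fin n → ℕ, (∀ x, 1 ≤ g x) ∧ (∀ x y, r x y → g x ≤ g y) ∧
    (∀ p q, Cov r p q → g q = g p + 1) ∧
    (∀ x, ∃ b, Relation.ReflTransGen (fun u v => r u v ∨ r v u) x b ∧ g b = 1) ∧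
    (Finset.univ.image g).card = k

/-- the labelled number of graded orders with `k` grade levels -/
noncomputable def a (k n : ℕ) : ℕ :=
  Set.ncard {r : Fin n → Fin n → Prop | IsPartialOrder (Fin n) r ∧ Graded k r}

section
variable {n : ℕ}

/-- admissible lower cover sets -/
def T (l : Fin n → ℕ) (y : Fin n) : Finset (Finset (Fin n)) :=
  if l y = 1 then {∅} else (({x | l x + 1 = l y} : Finset (Fin n)).powerset).erase ∅

/-- generated order -/
def ord (D : Fin n → Finset (Fin n)) : Fin n → Fin n → Prop :=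
  Relation.ReflTransGen (fun x y => x ∈ D y)

variable {l : Fin n → ℕ} {D : Fin n → Finset (Fin n)}

theorem step (h : ∀ y, D y ∈ T l y) {x y : Fin n} (hx : x ∈ D y) : l x + 1 = l y := by
  have := h y
  unfold T at this
  split_ifs at this with h1
  · rw [mem_singleton.1 this] at hx; simp at hx
  · simpa using mem_powerset.1 (mem_of_mem_erase this) hx

theorem ne_empty (h : ∀ y, D y ∈ T l y) {y : Fin n} (hy : l y ≠ 1) : ∃ x, x ∈ D y := by
  have := h y
  unfold T at this
  rw [if_neg hy] at this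
  exact nonempty_iff_ne_empty.2 (ne_of_mem_erase this)

theorem ord_le (h : ∀ y, D y ∈ T l y) {x y : Fin n} (hxy : ord D x y) :
    x = y ∨ l x < l y := by
  induction hxy with
  | refl => exact Or.inl rfl
  | tail _ h2 ih =>
    have := step h h2
    rcases ih with rfl | ih <;> right <;> omega

theorem cov_iff (h : ∀ y, D y ∈ T l y) {p q : Fin n} : Cov (ord D) p q ↔ p ∈ D q := by
  constructor
  · rintro ⟨h1, h2, h3⟩
    rcases Relation.ReflTransGen.cases_tail h1 with h4 | ⟨c, h4, h5⟩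
    · exact absurd h4.symm h2
    · by_cases h6 : p = c
      · exact h6 ▸ h5
      · refine absurd ⟨c, h4, h6, Relation.ReflTransGen.single h5, ?_⟩ h3
        rintro rfl
        have := step h h5
        omega
  · intro hp
    have := step h hp
    refine ⟨Relation.ReflTransGen.single hp, by rintro rfl; omega, ?_⟩
    rintro ⟨x, h1, h2, h3, h4⟩
    have a1 := (ord_le h h1).resolve_left h2
    have a2 := (ord_le h h3).resolve_left h4
    omega

theorem good (h : ∀ y, D y ∈ T l y) (h1 : ∀ x, 1 ≤ l x) {k : ℕ} (hk : (univ.image l).card = k) :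
    IsPartialOrder (Fin n) (ord D) ∧ Graded k (ord D) := by
  refine ⟨{ refl := fun _ => Relation.ReflTransGen.refl
            trans := fun _ _ _ => Relation.ReflTransGen.trans
            antisymm := fun x y hxy hyx => ?_ }, l, h1, ?_, ?_, ?_, hk⟩
  · rcases ord_le h hxy with h2 | h2
    · exact h2
    · rcases ord_le h hyx with h3 | h3
      · exact h3.symm
      · omega
  · intro x y hxy
    rcases ord_le h hxy with rfl | h2
    · rfl
    · exact h2.le
  · intro p q hpq
    exact (step h ((cov_iff h).1 hpq)).symm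
  · intro x
    induction hx : l x using Nat.strong_induction_on generalizing x with
    | _ m ih =>
      by_cases h2 : l x = 1
      · exact ⟨x, Relation.ReflTransGen.refl, h2⟩
      · obtain ⟨y, hy⟩ := ne_empty h h2
        have := step h hy
        obtain ⟨b, hb, hb'⟩ := ih (l y) (by omega) y rfl
        exact ⟨b, Relation.ReflTransGen.head (Or.inr (Relation.ReflTransGen.single hy)) hb, hb'⟩

theorem inj {l' : Fin n → ℕ} {D' : Fin n → Finset (Fin n)} (h : ∀ y, D y ∈ T l y)
    (h' : ∀ y, D' y ∈ T l' y) (h1 : ∀ x, 1 ≤ l x) (h1' : ∀ x, 1 ≤ l' x) (e : ord D = ord D') :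
    l = l' ∧ D = D' := by
  have hD : D = D' := by
    funext q
    ext p
    rw [← cov_iff h, ← cov_iff h', e]
  subst hD
  refine ⟨funext fun x => ?_, rfl⟩
  induction hx : l x using Nat.strong_induction_on generalizing x with
  | _ m ih =>
    by_cases h2 : l x = 1
    · by_contra h3
      obtain ⟨y, hy⟩ := ne_empty h' (y := x) (by omega)
      have := step h hy
      have := h1 y
      omega
    · obtain ⟨y, hy⟩ := ne_empty h h2
      have a1 := step h hy
      have a2 := step h' hy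
      have := ih (l y) (by omega) y rfl
      omega

/-- levels from two sets and a point -/
def lev (t : Fin n) (A B : Finset (Fin n)) (x : Fin n) : ℕ :=
  if x = t then 4 else if x ∈ A then 2 else if x ∈ B then 1 else 3

end

theorem pow_low (a b : ℕ) (h : 2 * b ≤ 2 ^ a) : 2 ^ (a * b) ≤ 2 * (2 ^ a - 1) ^ b := by
  have h0 : (0 : ℝ) < 2 ^ a := by positivity
  have h1 : 1 ≤ 2 ^ a := Nat.one_le_two_pow
  have h2 := one_add_mul_le_pow (a := -(1 / (2 : ℝ) ^ a)) (by
    have : 1 / (2 : ℝ) ^ a ≤ 1 := by rw [div_le_one h0]; exact_mod_cast h1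
    linarith) b
  have h3 : (b : ℝ) * (1 / 2 ^ a) ≤ 1 / 2 := by
    rw [mul_one_div, div_le_div_iff₀ h0 (by norm_num)]
    have : (2 : ℝ) * b ≤ 2 ^ a := by exact_mod_cast h
    linarith
  have h4 : ((2 : ℝ) ^ a - 1) ^ b = (2 ^ a) ^ b * (1 + -(1 / (2 : ℝ) ^ a)) ^ b := by
    rw [← mul_pow]; congr 1; field_simp; ring
  have : (2 : ℝ) ^ (a * b) ≤ 2 * (2 ^ a - 1) ^ b := by
    rw [h4, pow_mul]
    have : (0 : ℝ) < (2 ^ a) ^ b := by positivity
    nlinarith
  have h5 : ((2 ^ (a * b) : ℕ) : ℝ) ≤ ((2 * (2 ^ a - 1) ^ b : ℕ) : ℝ) := by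
    push_cast [Nat.cast_sub h1]
    exact this
  exact_mod_cast h5

theorem ch3 (m : ℕ) (hm : 4 ≤ m) : 6 ^ m ≤ 3 * (3 * m).choose m := by
  induction m, hm using Nat.le_induction with
  | base => decide
  | succ m hm ih =>
    have e1 := Nat.add_one_mul_choose_eq (3 * m + 2) m
    have e2 := Nat.choose_mul_succ_eq (3 * m + 1) m
    have e3 := Nat.choose_mul_succ_eq (3 * m) m
    rw [show 3 * m + 1 + 1 - m = 2 * m + 2 by omega] at e2
    rw [show 3 * m + 1 - m = 2 * m + 1 by omega] at e3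
    rw [show 3 * (m + 1) = 3 * m + 2 + 1 by ring]
    rw [show 3 * m + 1 + 1 = 3 * m + 2 by ring] at e2
    generalize (3 * m + 2 + 1).choose (m + 1) = c3 at *
    generalize (3 * m + 2).choose m = c2 at *
    generalize (3 * m + 1).choose m = c1 at *
    generalize (3 * m).choose m = c0 at *
    have e4 : 3 * c2 = c3 := by
      have : (m + 1) * (3 * c2) = (m + 1) * c3 := by linarith
      exact Nat.eq_of_mul_eq_mul_left (by omega) this
    have e5 : 2 * c0 ≤ c2 := by
      have h1 : c2 * ((2 * m + 2) * (2 * m + 1)) = c0 * ((3 * m + 1) * (3 * m + 2)) := by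
        calc _ = (c2 * (2 * m + 2)) * (2 * m + 1) := by ring
          _ = (c1 * (2 * m + 1)) * (3 * m + 2) := by rw [← e2]; ring
          _ = _ := by rw [← e3]; ring
      have h2 : 2 * ((2 * m + 2) * (2 * m + 1)) ≤ (3 * m + 1) * (3 * m + 2) := by nlinarith
      have h3 : (2 * c0) * ((2 * m + 2) * (2 * m + 1)) ≤ c2 * ((2 * m + 2) * (2 * m + 1)) := by
        rw [h1]; nlinarith
      exact Nat.le_of_mul_le_mul_right h3 (by positivity)
    rw [pow_succ]
    omega

theorem count (m : ℕ) (hm : 5 ≤ m) :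
    (6 * m).choose (3 * m) * (3 * m).choose m
      * ((2 ^ m - 1) ^ (3 * m) * (2 ^ (3 * m) - 1) ^ (2 * m) * (2 ^ (2 * m) - 1))
      ≤ a 4 (6 * m + 1) := by
  classical
  set t : Fin (6 * m + 1) := 0
  set U : Finset (Fin (6 * m + 1)) := univ.erase t with hU
  have hUc : U.card = 6 * m := by simp [hU]
  set S : Finset (Σ _ : (Σ _ : Finset (Fin (6 * m + 1)), Finset (Fin (6 * m + 1))),
      Fin (6 * m + 1) → Finset (Fin (6 * m + 1))) :=
    ((U.powersetCard (3 * m)).sigma (fun A => (U \ A).powersetCard m)).sigma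
      (fun p => Fintype.piFinset (T (lev t p.1 p.2))) with hS
  have hl1 : ∀ A B x, 1 ≤ lev t A B x := fun A B x => by
    unfold lev; split_ifs <;> omega
  have lv : ∀ p ∈ (U.powersetCard (3 * m)).sigma (fun A => (U \ A).powersetCard m),
      ({x | lev t p.1 p.2 x = 1} : Finset _) = p.2 ∧ ({x | lev t p.1 p.2 x = 2} : Finset _) = p.1 ∧
      ({x | lev t p.1 p.2 x = 3} : Finset _) = (U \ p.1) \ p.2 ∧
      ({x | lev t p.1 p.2 x = 4} : Finset _) = {t} ∧ p.1.card = 3 * m ∧ p.2.card = m ∧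
      ((U \ p.1) \ p.2).card = 2 * m := by
    rintro ⟨A, B⟩ hp
    obtain ⟨h1, h2⟩ := mem_sigma.1 hp
    obtain ⟨h3, h4⟩ := mem_powersetCard.1 h1
    obtain ⟨h5, h6⟩ := mem_powersetCard.1 h2
    simp only at h3 h4 h5 h6 ⊢
    have hA : ∀ x ∈ A, x ≠ t := fun x hx => ne_of_mem_erase (h3 hx)
    have hB : ∀ x ∈ B, x ≠ t ∧ x ∉ A := fun x hx =>
      ⟨ne_of_mem_erase (mem_sdiff.1 (h5 hx)).1, (mem_sdiff.1 (h5 hx)).2⟩
    refine ⟨?_, ?_, ?_, ?_, h4, h6, ?_⟩
    · ext x; rw [mem_filter]; unfold lev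
      have := hB x
      split_ifs <;> simp_all
    · ext x; rw [mem_filter]; unfold lev
      have := hA x
      split_ifs <;> simp_all
    · ext x; rw [mem_filter, Finset.mem_sdiff, Finset.mem_sdiff, hU, mem_erase]; unfold lev
      split_ifs <;> simp_all
    · ext x; rw [mem_filter, mem_singleton]; unfold lev
      split_ifs <;> simp_all
    · rw [card_sdiff_of_subset h5, card_sdiff_of_subset h3]; omega
  have hl4 : ∀ A B x, lev t A B x ∈ ({1, 2, 3, 4} : Finset ℕ) := fun A B x => by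
    unfold lev; split_ifs <;> simp
  have hc : S.card = (6 * m).choose (3 * m) * (3 * m).choose m
      * ((2 ^ m - 1) ^ (3 * m) * (2 ^ (3 * m) - 1) ^ (2 * m) * (2 ^ (2 * m) - 1)) := by
    rw [hS, card_sigma]
    have : ∀ p ∈ (U.powersetCard (3 * m)).sigma (fun A => (U \ A).powersetCard m),
        (Fintype.piFinset (T (lev t p.1 p.2))).card
          = (2 ^ m - 1) ^ (3 * m) * (2 ^ (3 * m) - 1) ^ (2 * m) * (2 ^ (2 * m) - 1) := by
      intro p hp
      obtain ⟨a1, a2, a3, a4, c1, c2, c3⟩ := lv p hp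
      rw [Fintype.card_piFinset]
      set c : ℕ → ℕ := fun j => if j = 1 then 1 else 2 ^ #{x | lev t p.1 p.2 x + 1 = j} - 1
        with hcdef
      have e : ∀ y, (T (lev t p.1 p.2) y).card = c (lev t p.1 p.2 y) := by
        intro y
        simp only [T, hcdef]
        split_ifs
        · simp
        · rw [card_erase_of_mem (empty_mem_powerset _), card_powerset]
      simp only [e]
      rw [← prod_fiberwise_of_maps_to (g := lev t p.1 p.2) (t := {1, 2, 3, 4})
        (fun x _ => hl4 _ _ x)]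
      have e2 : ∀ j, ∏ x with lev t p.1 p.2 x = j, c (lev t p.1 p.2 x)
          = c j ^ #{x | lev t p.1 p.2 x = j} := by
        intro j
        rw [← prod_const]
        exact prod_congr rfl fun x hx => by rw [(mem_filter.1 hx).2]
      simp only [e2]
      rw [prod_insert (by simp), prod_insert (by simp), prod_insert (by simp), prod_singleton,
        a1, a2, a3, a4, c1, c2, c3]
      have f2 : c 2 = 2 ^ m - 1 := by
        simp only [hcdef, show (2 : ℕ) = 1 + 1 from rfl, Nat.add_right_cancel_iff]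
        rw [if_neg (by omega), a1, c2]
      have f3 : c 3 = 2 ^ (3 * m) - 1 := by
        simp only [hcdef, show (3 : ℕ) = 2 + 1 from rfl, Nat.add_right_cancel_iff]
        rw [if_neg (by omega), a2, c1]
      have f4 : c 4 = 2 ^ (2 * m) - 1 := by
        simp only [hcdef, show (4 : ℕ) = 3 + 1 from rfl, Nat.add_right_cancel_iff]
        rw [if_neg (by omega), a3, c3]
      rw [f2, f3, f4]
      simp [hcdef, mul_assoc]
    rw [sum_congr rfl this, sum_const, smul_eq_mul, card_sigma]
    congr 1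
    have : ∀ A ∈ U.powersetCard (3 * m), ((U \ A).powersetCard m).card = (3 * m).choose m := by
      intro A hA
      obtain ⟨h1, h2⟩ := mem_powersetCard.1 hA
      rw [card_powersetCard, card_sdiff_of_subset h1, hUc, h2]
      congr 1; omega
    rw [sum_congr rfl this, sum_const, smul_eq_mul, card_powersetCard, hUc]
  rw [← hc, a, ← Set.ncard_coe_finset]
  refine Set.ncard_le_ncard_of_injOn (fun s => ord s.2) ?_ ?_ (Set.toFinite _)
  · rintro ⟨p, D⟩ hs
    obtain ⟨h1, h2⟩ := mem_sigma.1 (mem_coe.1 hs)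
    obtain ⟨a1, a2, a3, a4, c1, c2, c3⟩ := lv p h1
    refine good (Fintype.mem_piFinset.1 h2) (hl1 _ _) ?_
    have : univ.image (lev t p.1 p.2) = {1, 2, 3, 4} := by
      refine Subset.antisymm (image_subset_iff.2 fun x _ => hl4 _ _ x) ?_
      have key : ∀ j, 0 < #{x | lev t p.1 p.2 x = j} → j ∈ univ.image (lev t p.1 p.2) := by
        intro j hj
        obtain ⟨x, hx⟩ := card_pos.1 hj
        exact mem_image.2 ⟨x, mem_univ _, (mem_filter.1 hx).2⟩
      intro j hj
      simp only [mem_insert, mem_singleton] at hj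
      rcases hj with rfl | rfl | rfl | rfl <;> apply key
      · rw [a1]; omega
      · rw [a2]; omega
      · rw [a3]; omega
      · rw [a4]; simp
    rw [this]; rfl
  · rintro ⟨p, D⟩ hs ⟨p', D'⟩ hs' e
    obtain ⟨h1, h2⟩ := mem_sigma.1 (mem_coe.1 hs)
    obtain ⟨h1', h2'⟩ := mem_sigma.1 (mem_coe.1 hs')
    obtain ⟨e1, e2⟩ := inj (Fintype.mem_piFinset.1 h2) (Fintype.mem_piFinset.1 h2')
      (hl1 _ _) (hl1 _ _) e
    obtain ⟨a1, a2, -⟩ := lv p h1
    obtain ⟨b1, b2, -⟩ := lv p' h1'
    simp only at e1 e2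
    rw [e1] at a1 a2
    obtain ⟨A, B⟩ := p
    obtain ⟨A', B'⟩ := p'
    simp only at a1 a2 b1 b2
    rw [a1] at b1
    rw [a2] at b2
    subst b1 b2 e2
    rfl

theorem low (m : ℕ) (hm : 5 ≤ m) :
    2 ^ (9 * m ^ 2 + 8 * m) * 6 ^ m ≤ 72 * m * a 4 (6 * m + 1) := by
  have h0 : ∀ k, 5 ≤ k → 6 * k ≤ 2 ^ k := by
    intro k hk
    induction k, hk using Nat.le_induction with
    | base => norm_num
    | succ k hk ih => rw [pow_succ]; omega
  have h1 := pow_low m (3 * m) (by have := h0 m hm; omega)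
  have h2 := pow_low (3 * m) (2 * m) (by have := h0 (3 * m) (by omega); omega)
  have h3 := pow_low (2 * m) 1 (by have := h0 (2 * m) (by omega); omega)
  have h4 := ch3 m (by omega)
  have h5 := Nat.four_pow_lt_mul_centralBinom (3 * m) (by omega)
  rw [Nat.centralBinom, show 2 * (3 * m) = 6 * m by ring] at h5
  have h6 := count m hm
  rw [pow_one] at h3
  calc 2 ^ (9 * m ^ 2 + 8 * m) * 6 ^ m
      = 4 ^ (3 * m) * 6 ^ m * (2 ^ (m * (3 * m)) * 2 ^ (3 * m * (2 * m)) * 2 ^ (2 * m * 1)) := by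
        rw [show (4 : ℕ) = 2 ^ 2 by norm_num, ← pow_mul, ← pow_add, ← pow_add, mul_right_comm,
          ← pow_add]
        congr 2; ring
    _ ≤ (3 * m * (6 * m).choose (3 * m)) * (3 * (3 * m).choose m) * ((2 * (2 ^ m - 1) ^ (3 * m))
        * (2 * (2 ^ (3 * m) - 1) ^ (2 * m)) * (2 * (2 ^ (2 * m) - 1))) := by gcongr
    _ = 72 * m * ((6 * m).choose (3 * m) * (3 * m).choose m
      * ((2 ^ m - 1) ^ (3 * m) * (2 ^ (3 * m) - 1) ^ (2 * m) * (2 ^ (2 * m) - 1))) := by ring
    _ ≤ _ := by gcongr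

theorem result (C : ℝ) : ∃ᶠ n : ℕ in atTop,
    C * Real.log n < Real.logb 2 (a 4 n) - (n : ℝ) ^ 2 / 4 - 5 / 4 * n := by
  have hl2 := Real.log_two_gt_d9
  have hl2' := Real.log_two_lt_d9
  have h1 := Real.isLittleO_log_id_atTop.bound (c := 1 / (1000 * (|C| + 30))) (by positivity)
  have ht : Tendsto (fun m : ℕ => 6 * m + 1) atTop atTop :=
    tendsto_atTop_mono (fun m => by simp only [id]; omega) tendsto_id
  refine ht.frequently (Eventually.frequently ?_)
  filter_upwards [eventually_ge_atTop 5,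
    (tendsto_natCast_atTop_atTop.comp ht).eventually h1] with m hm h
  have hm' : (5 : ℝ) ≤ m := by exact_mod_cast hm
  simp only [Function.comp, id, Real.norm_eq_abs, Nat.abs_cast] at h
  have hn : ((6 * m + 1 : ℕ) : ℝ) = 6 * m + 1 := by push_cast; ring
  rw [hn] at h ⊢
  have hL : 1 ≤ Real.log (6 * m + 1) := by
    rw [Real.le_log_iff_exp_le (by positivity)]
    linarith [Real.exp_one_lt_d9]
  rw [abs_of_nonneg (by linarith), one_div_mul_eq_div, le_div_iff₀ (by positivity)] at h
  have h2 : (2 : ℝ) ^ (9 * m ^ 2 + 8 * m) * 6 ^ m ≤ 72 * m * a 4 (6 * m + 1) := by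
    exact_mod_cast low m hm
  have ha : (0 : ℝ) < a 4 (6 * m + 1) := by
    by_contra h0
    have : (0 : ℝ) < (2 : ℝ) ^ (9 * m ^ 2 + 8 * m) * 6 ^ m := by positivity
    nlinarith
  have h3 := Real.log_le_log (by positivity) h2
  rw [Real.log_mul (by positivity) (by positivity), Real.log_mul (by positivity) ha.ne',
    Real.log_pow, Real.log_pow] at h3
  have h4 : Real.log (72 * m) ≤ 3 * Real.log (6 * m + 1) := by
    rw [show (3 : ℝ) = (3 : ℕ) by norm_num, ← Real.log_pow]
    apply Real.log_le_log (by positivity)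
    nlinarith [mul_nonneg (sub_nonneg.2 hm') (sub_nonneg.2 hm'), pow_pos (by linarith : (0:ℝ) < m) 3]
  have h5 : 2.55 * Real.log 2 ≤ Real.log 6 := by
    have : Real.log ((2 : ℝ) ^ 51) ≤ Real.log (6 ^ 20) := Real.log_le_log (by positivity) (by norm_num)
    rw [Real.log_pow, Real.log_pow] at this
    push_cast at this
    linarith
  rw [Real.logb, lt_sub_iff_add_lt, lt_sub_iff_add_lt, lt_div_iff₀ (by linarith)]
  push_cast at h3
  have h6 : C * Real.log (6 * m + 1) * Real.log 2 ≤ |C| * Real.log (6 * m + 1) := by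
    have a1 : C * Real.log (6 * m + 1) ≤ |C| * Real.log (6 * m + 1) := by
      gcongr; exact le_abs_self C
    have a2 : 0 ≤ |C| * Real.log (6 * m + 1) := by positivity
    nlinarith
  have h7 : m * (2.55 * Real.log 2) ≤ m * Real.log 6 := by gcongr
  have h8 : m * 0.69 ≤ m * Real.log 2 := by gcongr; linarith
  nlinarith

end Pool.Agent.Results.MP_ac85ec_co.No
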